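import Pool.Agent.Helper392_GT.Main2

namespace Pool.Agent.Results.MP_202424_nt.DepthFiltration

open Pool.Agent.Helper392_GT

/-- Let `ψ ∈ L`, the free Lie algebra on `x, y` over a field of characteristic zero, satisfy the
pentagon equation, and let `m ≥ 1`. If `ψ` has depth `≥ m + 1`, then `ψ` lies in
`[L, [L, …, [L, L'']]] + [L', L'']` (with `m` outer brackets). -/
theorem result {k : Type*} [Field k] [CharZero k] (m : ℕ) (hm : 1 ≤ m) (ψ : F2 k)
    (hp : Pentagon k ψ) (hd : DepthGE k (m + 1) ψ) :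
    ψ ∈ LieSubmodule.lcs m (LieAlgebra.derivedSeries k (F2 k) 2) ⊔
      ⁅LieAlgebra.derivedSeries k (F2 k) 1, LieAlgebra.derivedSeries k (F2 k) 2⁆ := by
  obtain ⟨n, rfl⟩ : ∃ n, m = n + 1 := ⟨m - 1, by omega⟩
  exact mem_of_depth hp hd

end Pool.Agent.Results.MP_202424_nt.DepthFiltration
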